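import Mathlib.Algebra.Group.WithOne.Basic
import Mathlib.SetTheory.Cardinal.Aleph
import Mathlib.SetTheory.Cardinal.Ordinal
import Mathlib.GroupTheory.Congruence.Basic
import Mathlib.Tactic

/-!
# o-conjugacy can be a congruence with a non-cancellative quotient
-/

namespace Pool.Agent.Results.MP_472d46_al.NonCancellative

/-- `S^1`, realised inside `WithOne S`: all of `WithOne S` if `S` has no identity element, and
the copy of `S` if `S` has an identity element. -/
def S1 (S : Type*) [Semigroup S] : Set (WithOne S) :=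
  {x | x ≠ 1 ∨ ¬ ∃ e : S, ∀ s : S, e * s = s ∧ s * e = s}

/-- o-conjugacy: `ag = gb` and `bh = ha` for some `g, h ∈ S^1`. -/
def OConj {S : Type*} [Semigroup S] (a b : S) : Prop :=
  ∃ g ∈ S1 S, ∃ h ∈ S1 S, (a : WithOne S) * g = g * b ∧ (b : WithOne S) * h = h * a

/-- Cancellativity on both sides. -/
def IsCancellative (T : Type*) [Mul T] : Prop :=
  ∀ x y z : T, (x * z = y * z → x = y) ∧ (z * x = z * y → x = y)

section order

variable {X : Type} [LinearOrder X] [WellFoundedLT X]

/-- Every point lies on the forward orbit of a point outside the range. -/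
lemma exists_root {a : X → X} (ha : ∀ x, x < a x) (x : X) :
    ∃ p : X × ℕ, p.1 ∉ Set.range a ∧ a^[p.2] p.1 = x := by
  induction x using WellFoundedLT.induction with
  | ind x ih =>
    by_cases hx : x ∈ Set.range a
    · obtain ⟨y, rfl⟩ := hx
      obtain ⟨⟨r, n⟩, hr, hn⟩ := ih y (ha y)
      exact ⟨(r, n + 1), hr, by rw [Function.iterate_succ_apply', hn]⟩
    · exact ⟨(x, 0), hx, rfl⟩

omit [LinearOrder X] [WellFoundedLT X] in
lemma root_unique {a : X → X} (hinj : Function.Injective a) :
    ∀ (n m : ℕ) (r r' : X), r ∉ Set.range a → r' ∉ Set.range a → a^[n] r = a^[m] r' →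
      n = m ∧ r = r' := by
  intro n
  induction n with
  | zero =>
    intro m r r' hr hr' h
    cases m with
    | zero => exact ⟨rfl, h⟩
    | succ m =>
      exfalso
      apply hr
      rw [Function.iterate_succ_apply'] at h
      exact ⟨_, h.symm⟩
  | succ n ih =>
    intro m r r' hr hr' h
    cases m with
    | zero =>
      exfalso
      apply hr'
      rw [Function.iterate_succ_apply'] at h
      exact ⟨_, h⟩
    | succ m =>
      rw [Function.iterate_succ_apply', Function.iterate_succ_apply'] at h
      obtain ⟨h1, h2⟩ := ih m r r' hr hr' (hinj h)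
      exact ⟨by rw [h1], h2⟩

/-- A choice of distinct representatives from uncountable sets, by transfinite recursion. -/
lemma exists_injective_choice (hI : ∀ x : X, (Set.Iio x).Countable) (P : X → X → Prop)
    (hP : ∀ x, ¬ {y | P x y}.Countable) :
    ∃ y : X → X, Function.Injective y ∧ ∀ x, P x (y x) := by
  classical
  have key : ∀ (x : X) (ih : ∀ x', x' < x → X), ∃ z, P x z ∧ ∀ x' (h : x' < x), ih x' h ≠ z := by
    intro x ih
    by_contra hc
    push Not at hc
    apply hP x
    have hcount : (Set.range (fun p : Set.Iio x => ih p.1 p.2)).Countable := by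
      have : Countable (Set.Iio x) := (hI x).to_subtype
      exact Set.countable_range _
    apply hcount.mono
    intro z hz
    obtain ⟨x', h, he⟩ := hc z hz
    exact ⟨⟨x', h⟩, he⟩
  let F : ∀ x : X, (∀ x', x' < x → X) → X := fun x ih => (key x ih).choose
  let y : X → X := (wellFounded_lt (α := X)).fix F
  have hy : ∀ x, y x = (key x (fun x' _ => y x')).choose := fun x =>
    (wellFounded_lt (α := X)).fix_eq F x
  have hspec : ∀ x, P x (y x) ∧ ∀ x', x' < x → y x' ≠ y x := by
    intro x
    have := (key x (fun x' _ => y x')).choose_spec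
    rw [← hy x] at this
    exact this
  refine ⟨y, ?_, fun x => (hspec x).1⟩
  intro u v huv
  rcases lt_trichotomy u v with h | h | h
  · exact absurd huv ((hspec v).2 u h)
  · exact h
  · exact absurd huv.symm ((hspec u).2 v h)

lemma roots_uncountable (hX : ¬ (Set.univ : Set X).Countable) {b : X → X} (hb : ∀ x, x < b x) :
    ¬ {r | r ∉ Set.range b}.Countable := by
  intro hc
  apply hX
  have : (⋃ n : ℕ, (b^[n]) '' {r | r ∉ Set.range b}).Countable :=
    Set.countable_iUnion fun n => hc.image _
  apply this.mono
  intro x _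
  obtain ⟨⟨r, n⟩, hr, hn⟩ := exists_root hb x
  exact Set.mem_iUnion.mpr ⟨n, r, hr, hn⟩

/-- The conjugating map. -/
lemma exists_conj (hI : ∀ x : X, (Set.Iio x).Countable) (hX : ¬ (Set.univ : Set X).Countable)
    {a b : X → X} (ha : ∀ x, x < a x) (hb : ∀ x, x < b x) (hai : Function.Injective a)
    (hbi : Function.Injective b) :
    ∃ g : X → X, Function.Injective g ∧ (∀ x, x < g x) ∧ ∀ x, g (a x) = b (g x) := by
  obtain ⟨y, hyi, hy⟩ := exists_injective_choice hI
    (fun x z => z ∉ Set.range b ∧ ∀ n : ℕ, a^[n] x < z) (by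
      intro x hc
      apply roots_uncountable hX hb
      have h2 : (⋃ n : ℕ, Set.Iic (a^[n] x)).Countable := by
        apply Set.countable_iUnion
        intro n
        have : Set.Iic (a^[n] x) = Set.Iio (a^[n] x) ∪ {a^[n] x} := by
          rw [Set.Iio_union_right]
        rw [this]
        exact (hI _).union (Set.countable_singleton _)
      apply (hc.union h2).mono
      intro z hz
      by_cases h : ∀ n : ℕ, a^[n] x < z
      · exact Or.inl ⟨hz, h⟩
      · push Not at h
        obtain ⟨n, hn⟩ := h
        exact Or.inr (Set.mem_iUnion.mpr ⟨n, hn⟩))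
  choose p hp hpx using exists_root ha
  have hble : ∀ (n : ℕ) (x : X), x ≤ b^[n] x := by
    intro n
    induction n with
    | zero => intro x; exact le_rfl
    | succ n ih =>
      intro x
      rw [Function.iterate_succ_apply']
      exact (ih x).trans (hb _).le
  refine ⟨fun x => b^[(p x).2] (y (p x).1), ?_, ?_, ?_⟩
  · intro u v huv
    obtain ⟨h1, h2⟩ := root_unique hbi _ _ _ _ (hy _).1 (hy _).1 huv
    rw [← hpx u, ← hpx v, h1, hyi h2]
  · intro x
    calc x = a^[(p x).2] (p x).1 := (hpx x).symm
      _ < y (p x).1 := (hy _).2 _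
      _ ≤ b^[(p x).2] (y (p x).1) := hble _ _
  · intro x
    have h : a^[(p (a x)).2] (p (a x)).1 = a^[(p x).2 + 1] (p x).1 := by
      rw [hpx, Function.iterate_succ_apply', hpx]
    obtain ⟨h1, h2⟩ := root_unique hai _ _ _ _ (hp _) (hp _) h
    change b^[(p (a x)).2] (y (p (a x)).1) = b (b^[(p x).2] (y (p x).1))
    rw [h1, h2, Function.iterate_succ_apply']

end order

/-- The first uncountable ordinal as a type. -/
abbrev W : Type := (Cardinal.aleph 1).ord.ToType

lemma W_Iio (x : W) : (Set.Iio x).Countable := by
  rw [← Cardinal.le_aleph0_iff_set_countable]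
  have h := Cardinal.mk_Iio_lt x (by simp)
  rw [Cardinal.mk_ord_toType] at h
  have h1 : Cardinal.aleph 1 = Order.succ Cardinal.aleph0 := by
    rw [Cardinal.succ_aleph0]
  exact Order.lt_succ_iff.mp (h.trans_le h1.le)

lemma W_univ : ¬ (Set.univ : Set W).Countable := by
  intro h
  rw [← Cardinal.le_aleph0_iff_set_countable, Cardinal.mk_univ, Cardinal.mk_ord_toType] at h
  exact absurd h (not_le.mpr (Cardinal.aleph0_lt_aleph_one))

/-- The monoid of all injective self-maps of `ω₁` that are the identity or strictly
progressive. -/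
def S : Type := {f : W → W // Function.Injective f ∧ (f = id ∨ ∀ x, x < f x)}

/-- Composition from left to right. -/
instance instSemigroup : Semigroup S where
  mul f g := ⟨g.1 ∘ f.1, g.2.1.comp f.2.1, by
    rcases f.2.2 with hf | hf
    · rw [hf, Function.comp_id]; exact g.2.2
    · rcases g.2.2 with hg | hg
      · rw [hg, Function.id_comp]; exact Or.inr hf
      · exact Or.inr fun x => (hf x).trans (hg _)⟩
  mul_assoc f g h := rfl

lemma mul_val (f g : S) : (f * g).1 = g.1 ∘ f.1 := rfl

/-- The identity. -/
def e : S := ⟨id, Function.injective_id, Or.inl rfl⟩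

lemma e_mul (f : S) : e * f = f := rfl
lemma mul_e (f : S) : f * e = f := rfl

lemma ne_e_iff (f : S) : f ≠ e ↔ ∀ x, x < f.1 x := by
  constructor
  · intro h
    rcases f.2.2 with hf | hf
    · exact absurd (Subtype.ext hf) h
    · exact hf
  · intro h h0
    have : Nonempty W := by
      by_contra hn
      rw [not_nonempty_iff] at hn
      exact W_univ (Set.countable_univ_iff.mpr inferInstance)
    obtain ⟨x⟩ := this
    have := h x
    rw [h0] at this
    exact lt_irrefl _ this

lemma S1_coe {m : WithOne S} (hm : m ∈ S1 S) : ∃ s : S, m = (s : WithOne S) := by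
  have : m ≠ 1 := by
    rcases hm with h | h
    · exact h
    · exact absurd ⟨e, fun s => ⟨e_mul s, mul_e s⟩⟩ h
  obtain ⟨s, hs⟩ := WithOne.ne_one_iff_exists.mp this
  exact ⟨s, hs.symm⟩

lemma oconj_iff (a b : S) : OConj a b ↔ (a = e ↔ b = e) := by
  constructor
  · rintro ⟨g, hg, h, hh, h1, h2⟩
    obtain ⟨g, rfl⟩ := S1_coe hg
    obtain ⟨h, rfl⟩ := S1_coe hh
    rw [← WithOne.coe_mul, ← WithOne.coe_mul, WithOne.coe_inj] at h1 h2
    constructor
    · intro ha
      by_contra hb
      replace hb := (ne_e_iff b).mp hb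
      rw [ha, e_mul] at h1
      have : Nonempty W := by
        by_contra hn
        rw [not_nonempty_iff] at hn
        exact W_univ (Set.countable_univ_iff.mpr inferInstance)
      obtain ⟨x⟩ := this
      have h3 := hb (g.1 x)
      have h4 : g.1 x = b.1 (g.1 x) := congrFun (congrArg Subtype.val h1) x
      rw [← h4] at h3
      exact lt_irrefl _ h3
    · intro hb
      by_contra ha
      replace ha := (ne_e_iff a).mp ha
      rw [hb, e_mul] at h2
      have : Nonempty W := by
        by_contra hn
        rw [not_nonempty_iff] at hn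
        exact W_univ (Set.countable_univ_iff.mpr inferInstance)
      obtain ⟨x⟩ := this
      have h3 := ha (h.1 x)
      have h4 : h.1 x = a.1 (h.1 x) := congrFun (congrArg Subtype.val h2) x
      rw [← h4] at h3
      exact lt_irrefl _ h3
  · intro hab
    by_cases ha : a = e
    · have hb := hab.mp ha
      subst ha
      subst hb
      exact ⟨(e : S), Or.inl WithOne.coe_ne_one, (e : S), Or.inl WithOne.coe_ne_one, rfl, rfl⟩
    · have hb : b ≠ e := fun h => ha (hab.mpr h)
      replace ha := (ne_e_iff a).mp ha
      replace hb := (ne_e_iff b).mp hb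
      obtain ⟨g, hgi, hg, hgab⟩ := exists_conj W_Iio W_univ ha hb a.2.1 b.2.1
      obtain ⟨h, hhi, hh, hhba⟩ := exists_conj W_Iio W_univ hb ha b.2.1 a.2.1
      let g' : S := ⟨g, hgi, Or.inr hg⟩
      let h' : S := ⟨h, hhi, Or.inr hh⟩
      refine ⟨(g' : WithOne S), Or.inl WithOne.coe_ne_one,
        (h' : WithOne S), Or.inl WithOne.coe_ne_one, ?_, ?_⟩
      · rw [← WithOne.coe_mul, ← WithOne.coe_mul, WithOne.coe_inj]
        exact Subtype.ext (funext hgab)
      · rw [← WithOne.coe_mul, ← WithOne.coe_mul, WithOne.coe_inj]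
        exact Subtype.ext (funext hhba)

lemma mul_eq_e (a b : S) : a * b = e ↔ a = e ∧ b = e := by
  constructor
  · intro h
    by_cases ha : a = e
    · refine ⟨ha, ?_⟩
      rw [ha, e_mul] at h; exact h
    · exfalso
      have hab : a * b ≠ e := by
        replace ha := (ne_e_iff a).mp ha
        rw [ne_e_iff]
        intro x
        rcases b.2.2 with hb | hb
        · have : (a * b).1 x = a.1 x := by rw [mul_val, hb]; rfl
          rw [this]; exact ha x
        · exact (ha x).trans (hb _)
      exact hab h
  · rintro ⟨rfl, rfl⟩; rfl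

/-- The congruence of o-conjugacy on `S`. -/
def c : Con S where
  r a b := OConj a b
  iseqv := by
    constructor
    · intro a; rw [oconj_iff]
    · intro a b h; rw [oconj_iff] at h ⊢; exact h.symm
    · intro a b d h1 h2; rw [oconj_iff] at h1 h2 ⊢; exact h1.trans h2
  mul' := by
    intro w x y z h1 h2
    rw [oconj_iff] at h1 h2 ⊢
    rw [mul_eq_e, mul_eq_e, h1, h2]

/-- An element different from the identity. -/
lemma exists_ne : ∃ a : S, a ≠ e := by
  have : NoMaxOrder W := by
    refine ⟨fun x => ?_⟩
    by_contra hc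
    push Not at hc
    apply W_univ
    have h2 : (Set.Iio x ∪ {x}).Countable := (W_Iio x).union (Set.countable_singleton _)
    apply h2.mono
    intro y _
    rw [Set.Iio_union_right]
    exact hc y
  let a : S := ⟨Order.succ, Order.succ_injective, Or.inr fun x => Order.lt_succ x⟩
  exact ⟨a, (ne_e_iff a).mpr fun x => Order.lt_succ x⟩

/-- There is a semigroup on which o-conjugacy is a congruence whose quotient is not
cancellative. -/
theorem result : ∃ (S : Type) (_ : Semigroup S) (c : Con S),
    (∀ a b : S, c a b ↔ OConj a b) ∧ ¬ IsCancellative c.Quotient := by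
  refine ⟨S, instSemigroup, c, fun a b => Iff.rfl, ?_⟩
  intro h
  obtain ⟨a, ha⟩ := exists_ne
  have h1 := (h (e : c.Quotient) (a : c.Quotient) (a : c.Quotient)).1
  have h2 : ((e * a : S) : c.Quotient) = ((a * a : S) : c.Quotient) := by
    rw [Con.eq]
    change OConj _ _
    rw [oconj_iff, mul_eq_e, mul_eq_e]
    tauto
  have h3 := h1 h2
  rw [Con.eq] at h3
  change OConj _ _ at h3
  rw [oconj_iff] at h3
  exact ha (h3.mp rfl)

end Pool.Agent.Results.MP_472d46_al.NonCancellative
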